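import Mathlib

/-!
# A square root of `X^[*] X` with the kernel of `X`, but no `H`-selfadjoint one
-/

set_option autoImplicit false

namespace Pool.Agent.Results.MP_154e02_al.NoSelfadjointRoot

open Matrix

variable {𝕜 : Type*} [RCLike 𝕜]

/-- The `H`-adjoint `X^[*] = H⁻¹ X^* H`. -/
noncomputable def adj {n : ℕ} (H X : Matrix (Fin n) (Fin n) 𝕜) : Matrix (Fin n) (Fin n) 𝕜 :=
  H⁻¹ * Xᴴ * H

/-- `Q1` for the field `𝕜`: whenever `H` is hermitian and invertible, `Y² = X^[*] X` and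
`ker Y = ker X`, there is an `H`-selfadjoint `A` with `A² = X^[*] X` and `ker A = ker X`. -/
def Question (𝕜 : Type*) [RCLike 𝕜] : Prop :=
  ∀ (n : ℕ) (H X Y : Matrix (Fin n) (Fin n) 𝕜), 1 ≤ n → H.IsHermitian → IsUnit H →
    Y * Y = adj H X * X → LinearMap.ker Y.toLin' = LinearMap.ker X.toLin' →
    ∃ A : Matrix (Fin n) (Fin n) 𝕜, adj H A = A ∧ A * A = adj H X * X ∧
      LinearMap.ker A.toLin' = LinearMap.ker X.toLin'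

/-- The form. -/
def H₀ (𝕜 : Type*) [RCLike 𝕜] : Matrix (Fin 4) (Fin 4) 𝕜 :=
  !![0, 1, 0, 0; 1, 0, 0, 0; 0, 0, 0, 1; 0, 0, 1, 0]

/-- The matrix `X`. -/
noncomputable def X₀ (𝕜 : Type*) [RCLike 𝕜] : Matrix (Fin 4) (Fin 4) 𝕜 :=
  !![1, -1/2, 0, 0; 0, -1, 0, 0; 0, 0, 1, -1/2; 0, 0, 0, -1]

/-- The square root `Y`. -/
noncomputable def Y₀ (𝕜 : Type*) [RCLike 𝕜] : Matrix (Fin 4) (Fin 4) 𝕜 :=
  !![0, 0, -1, 1/2; 0, 0, 0, -1; 1, -1/2, 0, 0; 0, 1, 0, 0]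

/-- The product `X^[*] X`. -/
def B₀ (𝕜 : Type*) [RCLike 𝕜] : Matrix (Fin 4) (Fin 4) 𝕜 :=
  !![-1, 1, 0, 0; 0, -1, 0, 0; 0, 0, -1, 1; 0, 0, 0, -1]

theorem H_mul_H : H₀ 𝕜 * H₀ 𝕜 = 1 := by
  ext i j
  fin_cases i <;> fin_cases j <;> simp [H₀, Matrix.mul_apply, Fin.sum_univ_four]

theorem H_inv : (H₀ 𝕜)⁻¹ = H₀ 𝕜 := Matrix.inv_eq_right_inv H_mul_H

theorem H_herm : (H₀ 𝕜).IsHermitian := by
  ext i j
  fin_cases i <;> fin_cases j <;> simp [H₀, Matrix.conjTranspose_apply]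

theorem X_conj : (X₀ 𝕜)ᴴ = !![1, 0, 0, 0; -1/2, -1, 0, 0; 0, 0, 1, 0; 0, 0, -1/2, -1] := by
  ext i j
  rw [Matrix.conjTranspose_apply]
  fin_cases i <;> fin_cases j <;> simp [X₀]

theorem adj_X : adj (H₀ 𝕜) (X₀ 𝕜) * X₀ 𝕜 = B₀ 𝕜 := by
  have h1 : H₀ 𝕜 * (X₀ 𝕜)ᴴ = !![-1/2, -1, 0, 0; 1, 0, 0, 0; 0, 0, -1/2, -1; 0, 0, 1, 0] := by
    rw [X_conj]
    ext i j
    fin_cases i <;> fin_cases j <;> simp [H₀, Matrix.mul_apply, Fin.sum_univ_four]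
  have h2 : H₀ 𝕜 * (X₀ 𝕜)ᴴ * H₀ 𝕜 = !![-1, -1/2, 0, 0; 0, 1, 0, 0; 0, 0, -1, -1/2; 0, 0, 0, 1] := by
    rw [h1]
    ext i j
    fin_cases i <;> fin_cases j <;> simp [H₀, Matrix.mul_apply, Fin.sum_univ_four]
  rw [adj, H_inv, h2]
  ext i j
  fin_cases i <;> fin_cases j <;>
    simp [X₀, B₀, Matrix.mul_apply, Fin.sum_univ_four] <;> norm_num

theorem Y_mul_Y : Y₀ 𝕜 * Y₀ 𝕜 = B₀ 𝕜 := by
  ext i j
  fin_cases i <;> fin_cases j <;>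
    simp [Y₀, B₀, Matrix.mul_apply, Fin.sum_univ_four] <;> norm_num

theorem B_inj : Function.Injective (B₀ 𝕜).toLin' := by
  intro x y h
  have h' : ∀ i, (B₀ 𝕜 *ᵥ x) i = (B₀ 𝕜 *ᵥ y) i := fun i => congrFun h i
  have h0 := h' 0
  have h1 := h' 1
  have h2 := h' 2
  have h3 := h' 3
  simp [B₀, Matrix.mulVec, dotProduct, Fin.sum_univ_four] at h0 h1 h2 h3
  funext i
  fin_cases i
  · rw [h1] at h0; simpa using h0
  · exact h1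
  · rw [h3] at h2; simpa using h2
  · exact h3

theorem ker_eq_bot {C D : Matrix (Fin 4) (Fin 4) 𝕜} (h : C * D = B₀ 𝕜) :
    LinearMap.ker D.toLin' = ⊥ := by
  rw [LinearMap.ker_eq_bot]
  have := B_inj (𝕜 := 𝕜)
  rw [← h, Matrix.toLin'_mul, LinearMap.coe_comp] at this
  exact Function.Injective.of_comp this

theorem no_root (A : Matrix (Fin 4) (Fin 4) 𝕜) (h1 : adj (H₀ 𝕜) A = A) (h2 : A * A = B₀ 𝕜) :
    False := by
  have h3 : H₀ 𝕜 * A = Aᴴ * H₀ 𝕜 := by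
    conv_lhs => rw [← h1]
    rw [adj, H_inv, ← mul_assoc, ← mul_assoc, H_mul_H, one_mul]
  have h4 : A * B₀ 𝕜 = B₀ 𝕜 * A := by rw [← h2, mul_assoc]
  have c : ∀ i j, (A * B₀ 𝕜) i j = (B₀ 𝕜 * A) i j := fun i j => by rw [h4]
  have s : ∀ i j, (H₀ 𝕜 * A) i j = (Aᴴ * H₀ 𝕜) i j := fun i j => by rw [h3]
  have c11 := c 1 1
  have c13 := c 1 3
  have c01 := c 0 1
  have c21 := c 2 1
  have s01 := s 0 1
  have s03 := s 0 3
  have q := congrFun (congrFun h2 1) 1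
  simp [B₀, H₀, Matrix.mul_apply, Matrix.conjTranspose_apply, Fin.sum_univ_four]
    at c11 c13 c01 c21 s01 s03 q
  have e1 : A 0 0 = A 1 1 := by
    have : A 0 0 + -A 0 1 = A 1 1 + -A 0 1 := by rw [c01, add_comm]
    exact add_right_cancel this
  have e2 : A 2 0 = A 3 1 := by
    have : A 2 0 + -A 2 1 = A 3 1 + -A 2 1 := by rw [c21, add_comm]
    exact add_right_cancel this
  rw [e1] at s01
  rw [e2] at s03
  rw [c11, c13, s03, zero_mul, zero_mul, zero_add, add_zero] at q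
  nth_rewrite 1 [s01] at q
  rw [RCLike.conj_mul, RCLike.conj_mul] at q
  have q' : ‖A 1 1‖ ^ 2 + ‖A 3 1‖ ^ 2 = (-1 : ℝ) := by
    exact_mod_cast q
  nlinarith [sq_nonneg ‖A 1 1‖, sq_nonneg ‖A 3 1‖]

theorem answer : ¬ Question 𝕜 := by
  intro h
  obtain ⟨A, h1, h2, -⟩ := h 4 (H₀ 𝕜) (X₀ 𝕜) (Y₀ 𝕜) (by norm_num) H_herm
    (IsUnit.of_mul_eq_one _ H_mul_H) (Y_mul_Y.trans adj_X.symm)
    ((ker_eq_bot Y_mul_Y).trans (ker_eq_bot adj_X).symm)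
  exact no_root A h1 (h2.trans adj_X)

/-- **`Q1` is false over `ℝ` and over `ℂ`.** -/
theorem result : ¬ Question ℝ ∧ ¬ Question ℂ := ⟨answer, answer⟩

end Pool.Agent.Results.MP_154e02_al.NoSelfadjointRoot
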